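import Mathlib

/-!
# Repeated paint costs before the frugal distinguishing number

We exhibit a graph `G` on 49 vertices with paint cost spectrum `(2; 4, 4, 3)`:
`D(G) = 2`, `ρ²(G) = ρ³(G) = 4`, `ρ⁴(G) = Fix(G) = 3`, hence `F(G) = 4`.

The graph: the vertices are the ordered pairs `(u,v)` with `u, v ∈ Fin 7`; each row
`{u} × Fin 7` is a clique and `(u,v)` is joined to `(v,u)` for `u ≠ v`.  Its automorphism
group is `S_7`, acting diagonally.
-/

namespace Pool.Agent.Results.MP_8484b9_co.Plateau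

open Finset

/-! ## The definitions -/

section Defs

variable {V : Type} [Fintype V] [DecidableEq V]

/-- `c` is a distinguishing colouring of `G`: only the identity automorphism preserves `c`. -/
def IsDistinguishing (G : SimpleGraph V) {d : ℕ} (c : V → Fin d) : Prop :=
  ∀ φ : G ≃g G, (∀ v, c (φ v) = c v) → ∀ v, φ v = v

/-- the distinguishing number `D(G)` -/
noncomputable def distNumber (G : SimpleGraph V) : ℕ :=
  sInf {d | ∃ c : V → Fin d, IsDistinguishing G c}

/-- `S` is a fixing set: only the identity automorphism fixes every vertex of `S`. -/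
def IsFixing (G : SimpleGraph V) (S : Finset V) : Prop :=
  ∀ φ : G ≃g G, (∀ v ∈ S, φ v = v) → ∀ v, φ v = v

/-- the fixing number `Fix(G)` -/
noncomputable def fixNumber (G : SimpleGraph V) : ℕ :=
  sInf {k | ∃ S : Finset V, IsFixing G S ∧ S.card = k}

/-- the paint cost `ρ^d(G)`: the least size of the complement of a colour class of a
`d`-distinguishing colouring -/
noncomputable def paintCost (G : SimpleGraph V) (d : ℕ) : ℕ :=
  sInf {k | ∃ c : V → Fin d, IsDistinguishing G c ∧
    ∃ i : Fin d, (univ.filter fun v => c v ≠ i).card = k}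

/-- the frugal distinguishing number `F(G)` -/
noncomputable def frugalNumber (G : SimpleGraph V) : ℕ :=
  sInf {d | distNumber G ≤ d ∧ paintCost G d = fixNumber G}

end Defs

/-! ## The graph -/

/-- vertices `(u,v)`; rows are cliques, and `(u,v) ~ (v,u)` -/
def G : SimpleGraph (Fin 7 × Fin 7) where
  Adj p q := (p.1 = q.1 ∧ p.2 ≠ q.2) ∨ (p.1 ≠ q.1 ∧ p.2 = q.1 ∧ p.1 = q.2)
  symm := ⟨by
    rintro p q (⟨h, h'⟩ | ⟨h, h', h''⟩)
    · exact Or.inl ⟨h.symm, h'.symm⟩
    · exact Or.inr ⟨h.symm, h''.symm, h'.symm⟩⟩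
  loopless := ⟨by
    rintro p (⟨h, h'⟩ | ⟨h, h', h''⟩)
    · exact h' rfl
    · exact h rfl⟩

/-- a permutation of the seven points acts on `G` -/
def act (σ : Equiv.Perm (Fin 7)) : G ≃g G where
  toEquiv := Equiv.prodCongr σ σ
  map_rel_iff' := by
    intro p q
    simp only [G, Equiv.prodCongr_apply, Prod.map_fst, Prod.map_snd, ne_eq,
      EmbeddingLike.apply_eq_iff_eq]

@[simp] lemma act_apply (σ : Equiv.Perm (Fin 7)) (p : Fin 7 × Fin 7) :
    act σ p = (σ p.1, σ p.2) := rfl

/-- two adjacent vertices lie in the same row iff they have a common neighbour -/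
lemma row_iff {p q : Fin 7 × Fin 7} (h : G.Adj p q) :
    p.1 = q.1 ↔ ∃ r, G.Adj p r ∧ G.Adj q r := by
  constructor
  · intro e
    obtain ⟨w, hw1, hw2⟩ : ∃ w : Fin 7, w ≠ p.2 ∧ w ≠ q.2 := by
      generalize p.2 = a
      generalize q.2 = b
      revert a b
      decide
    exact ⟨(p.1, w), Or.inl ⟨rfl, hw1.symm⟩, Or.inl ⟨e.symm, hw2.symm⟩⟩
  · rintro ⟨r, h1, h2⟩
    by_contra hne
    obtain ⟨u, v⟩ := p
    obtain ⟨u', v'⟩ := q
    obtain ⟨x, y⟩ := r
    simp only [G, ne_eq] at h h1 h2 hne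
    rcases h with ⟨h, h'⟩ | ⟨h, h', h''⟩
    · exact hne h
    subst h' h''
    rcases h1 with ⟨a, b⟩ | ⟨a, b, c⟩ <;> rcases h2 with ⟨a', b'⟩ | ⟨a', b', c'⟩
    · exact hne (a.trans a'.symm)
    · exact b c'
    · exact b' c
    · exact a' b

/-- automorphisms preserve rows -/
lemma row_map (φ : G ≃g G) {p q : Fin 7 × Fin 7} (h : p.1 = q.1) : (φ p).1 = (φ q).1 := by
  by_cases e : p = q
  · rw [e]
  have hadj : G.Adj p q := Or.inl ⟨h, fun h' => e (Prod.ext h h')⟩
  obtain ⟨r, h1, h2⟩ := (row_iff hadj).1 h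
  exact (row_iff (φ.map_adj_iff.2 hadj)).2 ⟨φ r, φ.map_adj_iff.2 h1, φ.map_adj_iff.2 h2⟩

/-- the row map of an automorphism -/
def rowFun (φ : G ≃g G) (u : Fin 7) : Fin 7 := (φ (u, u)).1

lemma fst_eq (φ : G ≃g G) (p : Fin 7 × Fin 7) : (φ p).1 = rowFun φ p.1 :=
  row_map φ rfl

lemma rowFun_inj (φ : G ≃g G) : Function.Injective (rowFun φ) := by
  intro u v h
  have h1 : (φ.symm (φ (u, u))).1 = (φ.symm (φ (v, v))).1 := row_map φ.symm h
  simpa using h1

/-- classification of the automorphisms off the diagonal -/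
lemma off_diag (φ : G ≃g G) {u v : Fin 7} (h : u ≠ v) :
    φ (u, v) = (rowFun φ u, rowFun φ v) := by
  have hadj : G.Adj (u, v) (v, u) := Or.inr ⟨h, rfl, rfl⟩
  have h1 : G.Adj (φ (u, v)) (φ (v, u)) := φ.map_adj_iff.2 hadj
  have e1 : (φ (u, v)).1 = rowFun φ u := fst_eq φ _
  have e2 : (φ (v, u)).1 = rowFun φ v := fst_eq φ _
  have hne : (φ (u, v)).1 ≠ (φ (v, u)).1 := by
    rw [e1, e2]
    exact fun h' => h (rowFun_inj φ h')
  rcases h1 with ⟨a, b⟩ | ⟨a, b, c⟩
  · exact absurd a hne
  · exact Prod.ext e1 (b.trans e2)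

/-- classification of the automorphisms on the diagonal -/
lemma on_diag (φ : G ≃g G) (u : Fin 7) : φ (u, u) = (rowFun φ u, rowFun φ u) := by
  refine Prod.ext rfl ?_
  by_contra hne
  obtain ⟨w, hw⟩ : ∃ w, rowFun φ w = (φ (u, u)).2 :=
    (Finite.injective_iff_surjective.1 (rowFun_inj φ)) _
  have hwu : u ≠ w := by
    rintro rfl
    exact hne hw.symm
  have h1 := off_diag φ hwu
  have h2 : φ (u, u) = φ (u, w) := by
    rw [h1]
    exact Prod.ext rfl hw.symm
  have h3 := φ.injective h2
  exact hwu (congrArg Prod.snd h3)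

lemma eq_rowFun (φ : G ≃g G) (p : Fin 7 × Fin 7) :
    φ p = (rowFun φ p.1, rowFun φ p.2) := by
  obtain ⟨u, v⟩ := p
  by_cases h : u = v
  · subst h
    exact on_diag φ u
  · exact off_diag φ h

/-! ## Lower bounds -/

/-- a swap of two points not touched by `S` fixes `S` -/
lemma exists_swap (S : Finset (Fin 7 × Fin 7))
    (h : (S.image Prod.fst ∪ S.image Prod.snd).card ≤ 5) :
    ∃ σ : Equiv.Perm (Fin 7), σ ≠ 1 ∧ ∀ p ∈ S, act σ p = p := by
  set T := S.image Prod.fst ∪ S.image Prod.snd with hT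
  have h2 : 1 < (Tᶜ).card := by
    rw [card_compl, Fintype.card_fin]
    omega
  obtain ⟨a, ha, b, hb, hab⟩ := Finset.one_lt_card.1 h2
  refine ⟨Equiv.swap a b, ?_, ?_⟩
  · intro e
    rw [Equiv.swap_eq_one_iff] at e
    exact hab e
  · intro p hp
    have ha' := Finset.mem_compl.1 ha
    have hb' := Finset.mem_compl.1 hb
    have p1 : p.1 ∈ T := Finset.mem_union_left _ (Finset.mem_image_of_mem _ hp)
    have p2 : p.2 ∈ T := Finset.mem_union_right _ (Finset.mem_image_of_mem _ hp)
    rw [act_apply]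
    refine Prod.ext ?_ ?_
    · exact Equiv.swap_apply_of_ne_of_ne (fun e => ha' (e ▸ p1)) (fun e => hb' (e ▸ p1))
    · exact Equiv.swap_apply_of_ne_of_ne (fun e => ha' (e ▸ p2)) (fun e => hb' (e ▸ p2))

lemma act_ne {σ : Equiv.Perm (Fin 7)} (h : σ ≠ 1) : ∃ v, act σ v ≠ v := by
  by_contra hcon
  push Not at hcon
  apply h
  ext u
  have := hcon (u, u)
  rw [act_apply] at this
  have := congrArg Prod.fst this
  simp only at this
  rw [this]
  rfl

lemma touched_le (S : Finset (Fin 7 × Fin 7)) :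
    (S.image Prod.fst ∪ S.image Prod.snd).card ≤ 2 * S.card := by
  have h1 : (S.image Prod.fst).card ≤ S.card := card_image_le
  have h2 : (S.image Prod.snd).card ≤ S.card := card_image_le
  have h3 := card_union_le (S.image Prod.fst) (S.image Prod.snd)
  omega

/-- three vertices outside the base class, two further colours: not distinguishing -/
lemma not_three {c : Fin 7 × Fin 7 → Fin 3} {i : Fin 3}
    (h : (univ.filter fun v => c v ≠ i).card ≤ 3) : ¬ IsDistinguishing G c := by
  intro hd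
  set S := univ.filter fun v => c v ≠ i with hS
  have hmem : ∀ v, v ∈ S ↔ c v ≠ i := by
    intro v
    simp [hS]
  by_cases h5 : (S.image Prod.fst ∪ S.image Prod.snd).card ≤ 5
  · obtain ⟨σ, h1, h2⟩ := exists_swap S h5
    obtain ⟨v, hv⟩ := act_ne h1
    refine hv (hd (act σ) ?_ v)
    intro w
    by_cases hw : w ∈ S
    · rw [h2 w hw]
    · have hw' : act σ w ∉ S := by
        intro hw2
        apply hw
        have e := h2 _ hw2
        have e' := (act σ).injective e
        rwa [e'] at hw2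
      rw [hmem] at hw hw'
      push Not at hw hw'
      rw [hw, hw']
  · push Not at h5
    have hc := touched_le S
    have hS3 : S.card = 3 := by omega
    have h6 : (S.image Prod.fst ∪ S.image Prod.snd).card = 6 := by omega
    have h1 : (S.image Prod.fst).card ≤ S.card := card_image_le
    have h2 : (S.image Prod.snd).card ≤ S.card := card_image_le
    have h3 := card_union_add_card_inter (S.image Prod.fst) (S.image Prod.snd)
    have i1 : (S.image Prod.fst).card = S.card := by omega
    have i2 : (S.image Prod.snd).card = S.card := by omega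
    have i3 : (S.image Prod.fst ∩ S.image Prod.snd).card = 0 := by omega
    rw [card_eq_zero] at i3
    have inj1 := card_image_iff.1 i1
    have inj2 := card_image_iff.1 i2
    -- two vertices of S of the same colour
    obtain ⟨p, hp, q, hq, hpq, hcpq⟩ : ∃ p ∈ S, ∃ q ∈ S, p ≠ q ∧ c p = c q := by
      have hmap : ∀ v ∈ S, c v ∈ (univ.erase i : Finset (Fin 3)) := by
        intro v hv
        exact mem_erase.2 ⟨(hmem v).1 hv, mem_univ _⟩
      have hlt : (univ.erase i : Finset (Fin 3)).card < S.card := by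
        rw [hS3, card_erase_of_mem (mem_univ _), card_univ, Fintype.card_fin]
        norm_num
      exact exists_ne_map_eq_of_card_lt_of_maps_to hlt hmap
    have hdisj : ∀ x ∈ S, ∀ y ∈ S, x.1 ≠ y.2 := by
      intro x hx y hy e
      have : x.1 ∈ S.image Prod.fst ∩ S.image Prod.snd :=
        mem_inter.2 ⟨mem_image_of_mem _ hx, by rw [e]; exact mem_image_of_mem _ hy⟩
      rw [i3] at this
      simp at this
    -- the double transposition
    let σ : Equiv.Perm (Fin 7) := Equiv.swap p.1 q.1 * Equiv.swap p.2 q.2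
    have hpq1 : p.1 ≠ q.1 := fun e => hpq (inj1 hp hq e)
    have hpq2 : p.2 ≠ q.2 := fun e => hpq (inj2 hp hq e)
    have s1 : σ p.1 = q.1 := by
      simp only [σ, Equiv.Perm.mul_apply]
      rw [Equiv.swap_apply_of_ne_of_ne (hdisj p hp p hp) (hdisj p hp q hq),
        Equiv.swap_apply_left]
    have s2 : σ q.1 = p.1 := by
      simp only [σ, Equiv.Perm.mul_apply]
      rw [Equiv.swap_apply_of_ne_of_ne (hdisj q hq p hp) (hdisj q hq q hq),
        Equiv.swap_apply_right]
    have s3 : σ p.2 = q.2 := by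
      simp only [σ, Equiv.Perm.mul_apply]
      rw [Equiv.swap_apply_left,
        Equiv.swap_apply_of_ne_of_ne (hdisj p hp q hq).symm (hdisj q hq q hq).symm]
    have s4 : σ q.2 = p.2 := by
      simp only [σ, Equiv.Perm.mul_apply]
      rw [Equiv.swap_apply_right,
        Equiv.swap_apply_of_ne_of_ne (hdisj p hp p hp).symm (hdisj q hq p hp).symm]
    have s5 : ∀ x, x ≠ p.1 → x ≠ q.1 → x ≠ p.2 → x ≠ q.2 → σ x = x := by
      intro x a1 a2 a3 a4
      simp only [σ, Equiv.Perm.mul_apply]
      rw [Equiv.swap_apply_of_ne_of_ne a3 a4, Equiv.swap_apply_of_ne_of_ne a1 a2]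
    -- σ preserves S and its colours
    have hcol : ∀ w ∈ S, c (act σ w) = c w := by
      intro w hw
      by_cases e1 : w = p
      · rw [e1, act_apply, s1, s3]
        exact hcpq.symm
      by_cases e2 : w = q
      · rw [e2, act_apply, s2, s4]
        exact hcpq
      have b1 : w.1 ≠ p.1 := fun e => e1 (inj1 hw hp e)
      have b2 : w.1 ≠ q.1 := fun e => e2 (inj1 hw hq e)
      have b3 : w.2 ≠ p.2 := fun e => e1 (inj2 hw hp e)
      have b4 : w.2 ≠ q.2 := fun e => e2 (inj2 hw hq e)
      have b5 := hdisj w hw p hp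
      have b6 := hdisj w hw q hq
      have b7 := (hdisj p hp w hw).symm
      have b8 := (hdisj q hq w hw).symm
      rw [act_apply, s5 w.1 b1 b2 b5 b6, s5 w.2 b7 b8 b3 b4]
    have hall : ∀ w, c (act σ w) = c w := by
      intro w
      by_cases hw : w ∈ S
      · exact hcol w hw
      · have hw' : act σ w ∉ S := by
          intro hw2
          apply hw
          have hmaps : Set.MapsTo (act σ) (S : Set (Fin 7 × Fin 7)) S := by
            intro x hx
            have hx' : x ∈ S := hx
            have := hcol x hx'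
            show act σ x ∈ S
            rw [hmem, this]
            exact (hmem x).1 hx'
          have hsurj : Set.SurjOn (act σ) (S : Set (Fin 7 × Fin 7)) S :=
            Finset.surjOn_of_injOn_of_card_le _ hmaps ((act σ).injective.injOn) le_rfl
          obtain ⟨y, hy, hyw⟩ := hsurj hw2
          have := (act σ).injective hyw
          rw [← this]
          exact hy
        rw [hmem] at hw hw'
        push Not at hw hw'
        rw [hw, hw']
    have hfix := hd (act σ) hall p
    rw [act_apply, s1, s3] at hfix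
    exact hpq1 (congrArg Prod.fst hfix).symm

/-- a fixing set has at least three elements -/
lemma fixing_ge {S : Finset (Fin 7 × Fin 7)} (h : IsFixing G S) : 3 ≤ S.card := by
  by_contra hlt
  push Not at hlt
  have := touched_le S
  obtain ⟨σ, h1, h2⟩ := exists_swap S (by omega)
  obtain ⟨v, hv⟩ := act_ne h1
  exact hv (h (act σ) h2 v)

/-! ## Upper bounds -/

/-- four arcs: `0 → 1` and the path `2 → 3 → 4 → 5` -/
def S4 : Finset (Fin 7 × Fin 7) := {(0, 1), (2, 3), (3, 4), (4, 5)}

/-- three disjoint arcs -/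
def S3 : Finset (Fin 7 × Fin 7) := {(0, 1), (2, 3), (4, 5)}

lemma chain : ∀ a b c d : Fin 7, (a, b) ∈ S4 → (b, c) ∈ S4 → (c, d) ∈ S4 →
    a = 2 ∧ b = 3 ∧ c = 4 ∧ d = 5 := by
  decide

lemma single : ∀ a b : Fin 7, (a, b) ∈ S4 → a ≠ 2 → a ≠ 3 → a ≠ 4 → a = 0 ∧ b = 1 := by
  decide

lemma last : ∀ a : Fin 7, a = 0 ∨ a = 1 ∨ a = 2 ∨ a = 3 ∨ a = 4 ∨ a = 5 ∨ a = 6 := by
  decide

lemma id_of_six {φ : G ≃g G} (h0 : rowFun φ 0 = 0) (h1 : rowFun φ 1 = 1)
    (h2 : rowFun φ 2 = 2) (h3 : rowFun φ 3 = 3) (h4 : rowFun φ 4 = 4) (h5 : rowFun φ 5 = 5) :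
    ∀ v, φ v = v := by
  have hinj := rowFun_inj φ
  have h6 : rowFun φ 6 = 6 := by
    rcases last (rowFun φ 6) with e | e | e | e | e | e | e
    · exact absurd (hinj (e.trans h0.symm)) (by decide)
    · exact absurd (hinj (e.trans h1.symm)) (by decide)
    · exact absurd (hinj (e.trans h2.symm)) (by decide)
    · exact absurd (hinj (e.trans h3.symm)) (by decide)
    · exact absurd (hinj (e.trans h4.symm)) (by decide)
    · exact absurd (hinj (e.trans h5.symm)) (by decide)
    · exact e
  have hid : ∀ u, rowFun φ u = u := by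
    intro u
    fin_cases u
    exacts [h0, h1, h2, h3, h4, h5, h6]
  intro v
  rw [eq_rowFun, hid, hid]

lemma rigid4 (φ : G ≃g G) (h : ∀ v ∈ S4, φ v ∈ S4) : ∀ v, φ v = v := by
  have hinj := rowFun_inj φ
  have a1 := h (0, 1) (by decide)
  have a2 := h (2, 3) (by decide)
  have a3 := h (3, 4) (by decide)
  have a4 := h (4, 5) (by decide)
  rw [eq_rowFun] at a1 a2 a3 a4
  obtain ⟨h2, h3, h4, h5⟩ := chain _ _ _ _ a2 a3 a4
  simp only at h2 h3 h4 h5
  obtain ⟨h0, h1⟩ := single _ _ a1
    (by rw [← h2]; exact fun e => by simpa using hinj e)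
    (by rw [← h3]; exact fun e => by simpa using hinj e)
    (by rw [← h4]; exact fun e => by simpa using hinj e)
  exact id_of_six h0 h1 h2 h3 h4 h5

lemma rigid3 (φ : G ≃g G) (h : ∀ v ∈ S3, φ v = v) : ∀ v, φ v = v := by
  have a1 := h (0, 1) (by decide)
  have a2 := h (2, 3) (by decide)
  have a3 := h (4, 5) (by decide)
  rw [eq_rowFun] at a1 a2 a3
  simp only [Prod.mk.injEq] at a1 a2 a3
  exact id_of_six a1.1 a1.2 a2.1 a2.2 a3.1 a3.2

/-- the colouring with `S4` in one colour -/
def col4 (d : ℕ) (p : Fin 7 × Fin 7) : Fin (d + 2) := if p ∈ S4 then 1 else 0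

lemma col4_ne (d : ℕ) (p : Fin 7 × Fin 7) : col4 d p ≠ 0 ↔ p ∈ S4 := by
  unfold col4
  split_ifs with h
  · simp [h]
  · simp [h]

lemma col4_dist (d : ℕ) : IsDistinguishing G (col4 d) := by
  intro φ h
  apply rigid4
  intro v hv
  rw [← col4_ne d, h v, col4_ne]
  exact hv

lemma paint_le (d : ℕ) : 4 ∈ {k | ∃ c : Fin 7 × Fin 7 → Fin (d + 2), IsDistinguishing G c ∧
    ∃ i : Fin (d + 2), (univ.filter fun v => c v ≠ i).card = k} := by
  refine ⟨col4 d, col4_dist d, 0, ?_⟩
  have : (univ.filter fun v => col4 d v ≠ 0) = S4 := by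
    ext v
    rw [mem_filter, col4_ne]
    simp
  rw [this]
  decide

/-- the colouring with the three arcs of `S3` in three different colours -/
def col3 (p : Fin 7 × Fin 7) : Fin 4 :=
  if p = (0, 1) then 1 else if p = (2, 3) then 2 else if p = (4, 5) then 3 else 0

lemma col3_dist : IsDistinguishing G col3 := by
  intro φ h
  apply rigid3
  intro v hv
  have h1 := h v
  have key : ∀ v w : Fin 7 × Fin 7, v ∈ S3 → col3 w = col3 v → w = v := by
    decide
  exact key _ _ hv h1

lemma paint_le3 : 3 ∈ {k | ∃ c : Fin 7 × Fin 7 → Fin 4, IsDistinguishing G c ∧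
    ∃ i : Fin 4, (univ.filter fun v => c v ≠ i).card = k} := by
  refine ⟨col3, col3_dist, 0, ?_⟩
  decide

lemma paint_ge3 {d : ℕ} {c : Fin 7 × Fin 7 → Fin d} (hc : IsDistinguishing G c) (i : Fin d) :
    3 ≤ (univ.filter fun v => c v ≠ i).card := by
  apply fixing_ge
  intro φ hφ
  apply hc φ
  intro v
  by_cases hv : c v = i
  · by_contra hne
    have hv' : c (φ v) ≠ i := by rwa [hv] at hne
    have h1 := hφ (φ v) (by simp [hv'])
    have h2 := φ.injective h1
    rw [h2] at hne
    exact hne rfl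
  · rw [hφ v (by simp [hv])]

/-! ## The parameters of `G` -/

lemma dist_eq : distNumber G = 2 := by
  unfold distNumber
  have hmem : 2 ∈ {d | ∃ c : Fin 7 × Fin 7 → Fin d, IsDistinguishing G c} :=
    ⟨col4 0, col4_dist 0⟩
  apply le_antisymm
  · exact Nat.sInf_le hmem
  · apply le_csInf ⟨2, hmem⟩
    rintro d ⟨c, hc⟩
    by_contra hlt
    push Not at hlt
    have hall : ∀ a b : Fin d, a = b := by
      intro a b
      ext
      have := a.2
      have := b.2
      omega
    have h1 := hc (act (Equiv.swap 0 1)) (fun v => hall _ _) (0, 0)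
    rw [act_apply] at h1
    simp at h1

lemma paint2 : paintCost G 2 = 4 := by
  unfold paintCost
  apply le_antisymm
  · exact Nat.sInf_le (paint_le 0)
  · apply le_csInf ⟨4, paint_le 0⟩
    rintro k ⟨c, hc, i, rfl⟩
    by_contra hlt
    push Not at hlt
    let c' : Fin 7 × Fin 7 → Fin 3 := fun v => (c v).castSucc
    have hc' : IsDistinguishing G c' := by
      intro φ h
      apply hc φ
      intro v
      have := h v
      simpa [c'] using this
    have hcard : (univ.filter fun v => c' v ≠ i.castSucc).card ≤ 3 := by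
      have : (univ.filter fun v => c' v ≠ i.castSucc) = univ.filter fun v => c v ≠ i := by
        ext v
        simp [c']
      rw [this]
      omega
    exact not_three hcard hc'

lemma paint3 : paintCost G 3 = 4 := by
  unfold paintCost
  apply le_antisymm
  · exact Nat.sInf_le (paint_le 1)
  · apply le_csInf ⟨4, paint_le 1⟩
    rintro k ⟨c, hc, i, rfl⟩
    by_contra hlt
    push Not at hlt
    exact not_three (Nat.le_of_lt_succ hlt) hc

lemma paint4 : paintCost G 4 = 3 := by
  unfold paintCost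
  apply le_antisymm
  · exact Nat.sInf_le paint_le3
  · apply le_csInf ⟨3, paint_le3⟩
    rintro k ⟨c, hc, i, rfl⟩
    exact paint_ge3 hc i

lemma fix_eq : fixNumber G = 3 := by
  unfold fixNumber
  have hmem : 3 ∈ {k | ∃ S : Finset (Fin 7 × Fin 7), IsFixing G S ∧ S.card = k} :=
    ⟨S3, rigid3, by decide⟩
  apply le_antisymm
  · exact Nat.sInf_le hmem
  · apply le_csInf ⟨3, hmem⟩
    rintro k ⟨S, hS, rfl⟩
    exact fixing_ge hS

lemma frugal_eq : frugalNumber G = 4 := by
  unfold frugalNumber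
  rw [dist_eq, fix_eq]
  have hmem : 4 ∈ {d | 2 ≤ d ∧ paintCost G d = 3} := ⟨by norm_num, paint4⟩
  apply le_antisymm
  · exact Nat.sInf_le hmem
  · apply le_csInf ⟨4, hmem⟩
    rintro d ⟨h1, h2⟩
    by_contra hlt
    push Not at hlt
    interval_cases d
    · rw [paint2] at h2
      omega
    · rw [paint3] at h2
      omega

/-- There is a graph (on 49 vertices) with `D = 2`, `ρ² = ρ³ = 4`, `ρ⁴ = Fix = 3`, `F = 4`;
so both Q2 (`ρ^D = ρ^{D+1} ≠ Fix`) and Q1 (`D ≤ i`, `i + 1 < F`, `ρ^i = ρ^{i+1}`, with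
`i = D = 2`) have a positive answer. -/
theorem result :
    ∃ G : SimpleGraph (Fin 7 × Fin 7),
      distNumber G = 2 ∧ paintCost G 2 = 4 ∧ paintCost G 3 = 4 ∧ paintCost G 4 = 3 ∧
      fixNumber G = 3 ∧ frugalNumber G = 4 ∧
      (paintCost G (distNumber G) = paintCost G (distNumber G + 1) ∧
        paintCost G (distNumber G) ≠ fixNumber G) ∧
      (∃ i, distNumber G ≤ i ∧ i + 1 < frugalNumber G ∧ paintCost G i = paintCost G (i + 1)) := by
  refine ⟨G, dist_eq, paint2, paint3, paint4, fix_eq, frugal_eq, ?_, 2, ?_⟩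
  · rw [dist_eq, paint2, paint3, fix_eq]
    omega
  · rw [dist_eq, frugal_eq, paint2, paint3]
    omega

end Pool.Agent.Results.MP_8484b9_co.Plateau
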